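import Mathlib

/-!
Regular chains over a Diophantine pair `{u,v}`: a path of five extensions in which consecutive
ones form a regular quadruple with `u, v` has ends `x₁, x₅` such that `x₁ x₅ + 1` is no square.
-/

namespace H6W

/-- Symmetric form that vanishes exactly at the regular quadruples. -/
def S (a b c d : ℤ) : ℤ :=
  a^2 + b^2 + c^2 + d^2 - 2*(a*b + a*c + a*d + b*c + b*d + c*d) - 4*a*b*c*d - 4

lemma S_comm34 (a b c d : ℤ) : S a b c d = S a b d c := by unfold S; ring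

lemma S_comm12 (a b c d : ℤ) : S a b c d = S b a c d := by unfold S; ring

lemma aux {a b c e : ℤ} (ha : 0 < a) (hb : 0 < b) (hac : a ≤ c) (hbc : b ≤ c) (he0 : 0 < e)
    (he : e < a + b) : e^2 < 4*(a*b + a*c + b*c) := by
  have e2 : e^2 < (a+b)^2 := pow_lt_pow_left₀ he he0.le two_ne_zero
  have h1 : a*a ≤ a*c := mul_le_mul_of_nonneg_left hac ha.le
  have h2 : b*b ≤ b*c := mul_le_mul_of_nonneg_left hbc hb.le
  have h3 : (a+b)^2 = a*a + 2*(a*b) + b*b := by ring
  have h4 : 0 < a*b := mul_pos ha hb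
  have h5 : 0 < a*c := mul_pos ha (by linarith)
  have h6 : 0 < b*c := mul_pos hb (by linarith)
  linarith

/-- If the last one is the largest, it is larger than `a + b + c + 4abc`. -/
lemma big {a b c d : ℤ} (ha : 0 < a) (hb : 0 < b) (hc : 0 < c)
    (had : a < d) (hbd : b < d) (hcd : c < d) (h : S a b c d = 0) :
    a + b + c + 4*a*b*c < d := by
  unfold S at h
  have hab : 0 < a*b := mul_pos ha hb
  have hac : 0 < a*c := mul_pos ha hc
  have hbc : 0 < b*c := mul_pos hb hc
  have habc : 0 < a*b*c := mul_pos hab hc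
  have h1 : (d - (a+b+c+2*a*b*c))^2 = 4*(a*b+1)*(a*c+1)*(b*c+1) := by linear_combination h
  have h2 : (2*a*b*c)^2 < (d - (a+b+c+2*a*b*c))^2 := by
    rw [h1]
    have e : 4*(a*b+1)*(a*c+1)*(b*c+1)
        = (2*a*b*c)^2 + 4*(a*b*c)*(a+b+c) + 4*(a*b) + 4*(a*c) + 4*(b*c) + 4 := by ring
    rw [e]
    have : 0 < (a*b*c)*(a+b+c) := mul_pos habc (by linarith)
    linarith
  by_contra hcon
  push Not at hcon
  have h4 : d - (a+b+c+2*a*b*c) < -(2*a*b*c) := by
    by_contra h5
    push Not at h5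
    have : (d - (a+b+c+2*a*b*c))^2 ≤ (2*a*b*c)^2 := by
      apply sq_le_sq' <;> linarith
    linarith
  have h6 : d < a + b + c := by linarith
  have h7 : (a+b+c-d)^2 = 4*(a*b+a*c+b*c) + 4*a*b*c*d + 4 := by linear_combination h
  have hd : 0 < a*b*c*d := mul_pos habc (by linarith)
  have h8 : 4*(a*b+a*c+b*c) < (a+b+c-d)^2 := by rw [h7]; linarith
  -- the square is at most the square of the sum of the two smaller ones
  have e0 : 0 < a+b+c-d := by linarith
  rcases le_total a c with hac' | hac'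
  · rcases le_total b c with hbc' | hbc'
    · -- c largest
      have := aux ha hb hac' hbc' e0 (by linarith)
      linarith
    · -- b ≥ c ≥ a
      have := aux ha hc (le_trans hac' hbc') hbc' e0 (by linarith)
      have e : a*c + a*b + c*b = a*b + a*c + b*c := by ring
      rw [e] at this
      linarith
  · rcases le_total a b with hab' | hab'
    · -- b ≥ a ≥ c
      have := aux ha hc hab' (le_trans hac' hab') e0 (by linarith)
      have e : a*c + a*b + c*b = a*b + a*c + b*c := by ring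
      rw [e] at this
      linarith
    · -- a largest
      have := aux hb hc hab' hac' e0 (by linarith)
      have e : b*c + b*a + c*a = a*b + a*c + b*c := by ring
      rw [e] at this
      linarith

/-- The two regular neighbours of `x` have sum `2(u+v+x+2uvx)`. -/
lemma nbr_sum {u v x y y' : ℤ} (h : S u v x y = 0) (h' : S u v x y' = 0) (hne : y ≠ y') :
    y + y' = 2*(u+v+x+2*u*v*x) := by
  have e : (y-y')*(y+y'-2*(u+v+x+2*u*v*x)) = 0 := by
    unfold S at *; linear_combination h - h'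
  rcases mul_eq_zero.1 e with h1 | h1
  · exact absurd (by linarith) hne
  · linarith

lemma nbr_prod {u v x y y' : ℤ} (h : S u v x y = 0) (h' : S u v x y' = 0) (hne : y ≠ y') :
    y * y' = (u+v-x)^2 - 4*(u*v+1) := by
  have e := nbr_sum h h' hne
  have e' : y' = 2*(u+v+x+2*u*v*x) - y := by linarith
  rw [e']
  unfold S at h
  linear_combination -h

lemma not_both_big {u v x y y' : ℤ} (hu : 0 < u) (hv : 0 < v) (hx : 0 < x)
    (h : S u v x y = 0) (h' : S u v x y' = 0) (hne : y ≠ y')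
    (h1 : u < y) (h2 : v < y) (h3 : x < y) (h1' : u < y') (h2' : v < y') (h3' : x < y') :
    False := by
  have a1 := big hu hv hx h1 h2 h3 h
  have a2 := big hu hv hx h1' h2' h3' h'
  have a3 := nbr_sum h h' hne
  nlinarith [mul_pos (mul_pos hu hv) hx]

/-- The identity for the product of the two ends. -/
lemma key {u v r x1 x2 x3 x4 x5 : ℤ} (hr : r^2 = u*v+1)
    (h13 : x1 + x3 = 2*(u+v+x2+2*u*v*x2)) (h24 : x2 + x4 = 2*(u+v+x3+2*u*v*x3))
    (h35 : x3 + x5 = 2*(u+v+x4+2*u*v*x4)) (hp : x2*x4 = (u+v-x3)^2 - 4*(u*v+1)) :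
    x1*x5 + 1 = (x3 - 4*(u+v)*r^2)^2 - (4*r*(2*r^2-1))^2 + 1 := by
  have hQ : (4*r*(2*r^2-1))^2 = 16*(u*v+1)*(2*(u*v+1)-1)^2 := by
    calc (4*r*(2*r^2-1))^2 = 16*r^2*(2*r^2-1)^2 := by ring
      _ = _ := by rw [hr]
  have e1 : x1 = 2*(u+v+x2+2*u*v*x2) - x3 := by linarith
  have e5 : x5 = 2*(u+v+x4+2*u*v*x4) - x3 := by linarith
  rw [hQ, hr, e1, e5]
  linear_combination (2*(1+2*u*v))^2 * hp + (2*(1+2*u*v))*(2*(u+v)-x3) * h24

lemma four_dvd {X D Q : ℤ} (h : X^2 = D^2 - 16*Q^2 + 1) : (4:ℤ) ∣ D := by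
  have hd : ∀ a b : ZMod 8, a^2 = b^2 + 1 → b = 0 ∨ b = 4 := by decide
  have h2 : ((X : ZMod 8))^2 = (D : ZMod 8)^2 + 1 := by
    have := congrArg (fun z : ℤ => (z : ZMod 8)) h
    push_cast at this
    have h16 : (16 : ZMod 8) = 0 := by decide
    rw [this, h16]; ring
  rcases hd _ _ h2 with h3 | h3
  · have : ((8:ℕ):ℤ) ∣ D := (ZMod.intCast_zmod_eq_zero_iff_dvd D 8).1 (by exact_mod_cast h3)
    exact dvd_trans ⟨2, by norm_num⟩ this
  · have h4 : ((D - 4 : ℤ) : ZMod 8) = 0 := by push_cast; rw [h3]; decide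
    have : ((8:ℕ):ℤ) ∣ D - 4 := (ZMod.intCast_zmod_eq_zero_iff_dvd (D-4) 8).1 (by exact_mod_cast h4)
    obtain ⟨c, hc⟩ := this
    exact ⟨2*c+1, by push_cast at hc; linarith⟩

end H6W
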