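import Pool.Agent.H6W.Basic

namespace H6W

/-- Valley case: the middle element is small. -/
lemma caseV {u v r m Z : ℤ} (hu : 0 < u) (hr : r^2 = u*v+1) (hm : 0 < m)
    (hm4 : (4:ℤ) ∣ m) (hmv : 4*u*m < v) (hZ : 0 ≤ Z)
    (h : Z^2 = (m - 4*(u+v)*r^2)^2 - (4*r*(2*r^2-1))^2 + 1) : False := by
  have hm4' : 4 ≤ m := Int.le_of_dvd hm hm4
  have h16 : 16*u < v := by
    have : 4*u*4 ≤ 4*u*m := mul_le_mul_of_nonneg_left hm4' (by linarith)
    linarith
  have hv : 0 < v := by linarith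
  have huv0 : 0 < u*v := mul_pos hu hv
  have hvR : 1*v ≤ u*v := mul_le_mul_of_nonneg_right hu hv.le
  have hmv' : 4*m ≤ 4*u*m := by
    have : 1*m ≤ u*m := mul_le_mul_of_nonneg_right hu hm.le
    linarith
  obtain ⟨R, hR⟩ : ∃ R : ℤ, R = u*v+1 := ⟨_, rfl⟩
  have hRv : v + 1 ≤ R := by linarith
  have hR0 : 0 < R := by linarith
  have hQ : (4*r*(2*r^2-1))^2 = 16*R*(2*R-1)^2 := by
    calc (4*r*(2*r^2-1))^2 = 16*r^2*(2*r^2-1)^2 := by ring
      _ = _ := by rw [hr, hR]
  rw [hQ, hr, ← hR] at h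
  obtain ⟨f, hf⟩ : ∃ f : ℤ, f = v - u := ⟨_, rfl⟩
  obtain ⟨q, hq⟩ : ∃ q : ℤ, q = 4*R*f - Z := ⟨_, rfl⟩
  have hf0 : 0 < f := by linarith
  have hZq : Z = 4*R*f - q := by linarith
  have hg : u + v = f + 2*u := by linarith
  -- main equation
  have E : q^2 - m^2 - 1 = 8*R*(f*q - (u+v)*m - 2) := by
    rw [hZq] at h
    have huv1 : u*v = R - 1 := by linarith
    have : (u+v)^2 = f^2 + 4*(R-1) := by rw [hf, ← huv1]; ring
    linear_combination h + 16*R^2*this
  obtain ⟨w, hw⟩ : ∃ w : ℤ, w = f*q - (u+v)*m - 2 := ⟨_, rfl⟩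
  rw [← hw] at E
  have hqle : q ≤ 4*R*f := by linarith
  have hum : 2*(2*u*m) < v := by linarith
  rcases lt_trichotomy w 0 with hw0 | hw0 | hw0
  · -- w < 0
    have hRw : 8*R*w ≤ 8*R*(-1) := mul_le_mul_of_nonneg_left (by linarith) (by linarith)
    have hqm : q < m := by
      by_contra hc
      push Not at hc
      have : m^2 ≤ q^2 := pow_le_pow_left₀ hm.le hc 2
      linarith
    have h1 : w ≤ f*(m-1) - (u+v)*m - 2 := by
      have : f*q ≤ f*(m-1) := mul_le_mul_of_nonneg_left (by linarith) hf0.le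
      linarith
    have h2 : w ≤ -f := by
      rw [hg] at h1
      have : 0 < u*m := mul_pos hu hm
      linarith
    have h3 : 8*R*w ≤ 8*R*(-f) := mul_le_mul_of_nonneg_left h2 (by linarith)
    have h4 : 0 ≤ q^2 := sq_nonneg q
    have h5 : 8*R*f ≤ m^2 + 1 := by linarith
    have h6 : v < 2*f := by linarith
    have h7 : v*v ≤ R*(2*f) := mul_le_mul (by linarith) h6.le hv.le hR0.le
    have h8 : m*m ≤ v*v := mul_le_mul (by linarith) (by linarith) hm.le hv.le
    have h9 : m^2 = m*m := by ring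
    have h10 : 8*R*f = 4*(R*(2*f)) := by ring
    have h11 : 1*1 ≤ v*v := mul_le_mul hv hv (by norm_num) hv.le
    rw [h9] at h5
    linarith
  · -- w = 0
    rw [hw0] at E
    have hqq : q^2 = m^2 + 1 := by linarith
    have h1 : |q|^2 = m^2 + 1 := by rw [sq_abs]; exact hqq
    rcases le_or_gt |q| m with h2 | h2
    · have := pow_le_pow_left₀ (abs_nonneg q) h2 2
      linarith
    · have h3 : m + 1 ≤ |q| := h2
      have := pow_le_pow_left₀ (by linarith) h3 2
      have e : (m+1)^2 = m^2 + 2*m + 1 := by ring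
      linarith
  · -- w > 0
    have hRw : 8*R*1 ≤ 8*R*w := mul_le_mul_of_nonneg_left hw0 (by linarith)
    have hgm : 0 < (u+v)*m := mul_pos (by linarith) hm
    have hfq : 0 < f*q := by linarith
    have hq0 : 0 < q := (mul_pos_iff_of_pos_left hf0).1 hfq
    have hqm : m + 1 ≤ q := by
      by_contra hc
      push Not at hc
      have : q^2 ≤ m^2 := pow_le_pow_left₀ hq0.le (by linarith) 2
      linarith
    have hRf : R*1 ≤ R*f := mul_le_mul_of_nonneg_left hf0 (by linarith)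
    have h1 : 0 ≤ (q - (m+1)) * (8*R*f - q - (m+1)) := by
      apply mul_nonneg
      · linarith
      · linarith
    have h2 : q*(8*R*f - q) = 8*R*((u+v)*m+2) - m^2 - 1 := by
      rw [hw] at E
      linear_combination -E
    have h3 : (m+1)*(8*R*f - (m+1)) ≤ q*(8*R*f - q) := by
      have e : (q - (m+1)) * (8*R*f - q - (m+1))
          = q*(8*R*f - q) - (m+1)*(8*R*f - (m+1)) := by ring
      rw [e] at h1
      linarith
    rw [h2, hg] at h3
    -- 8R(2um + 2 - f) ≥ -2m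
    have h4 : -(2*m) ≤ 8*R*(2*u*m + 2 - f) := by
      have e : 8*R*((f+2*u)*m+2) - m^2 - 1 - (m+1)*(8*R*f - (m+1))
          = 8*R*(2*u*m + 2 - f) + 2*m := by ring
      linarith
    have h5 : 2*u*m + 2 - f ≤ -1 := by
      have : 2*(2*u*m + 2 - f) ≤ -2 := by linarith
      linarith
    have h6 : 8*R*(2*u*m + 2 - f) ≤ 8*R*(-1) := mul_le_mul_of_nonneg_left h5 (by linarith)
    linarith

/-- Increasing case. -/
lemma caseM {u v r x1 x2 Z : ℤ} (hu : 0 < u) (huv : u < v) (hr : r^2 = u*v+1) (hr0 : 0 < r)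
    (hx1 : u + v + 2*r ≤ x1) (hx2 : u + v + x1 + 4*u*v*x1 < x2) (hZ : 0 ≤ Z)
    (h : Z^2 = (2*(2*r^2-1)*(x2-(u+v)) - x1)^2 - (4*r*(2*r^2-1))^2 + 1) : False := by
  have hv : 0 < v := by linarith
  have huv0 : 0 < u*v := mul_pos hu hv
  have hr2 : 2 ≤ r := by
    by_contra hc
    push Not at hc
    have : r = 1 := by linarith
    rw [this] at hr
    linarith
  have hrr : 2*2 ≤ r*r := mul_le_mul hr2 hr2 (by norm_num) hr0.le
  have hrr' : r^2 = r*r := by ring
  obtain ⟨N, hN⟩ : ∃ N : ℤ, N = 2*r^2 - 1 := ⟨_, rfl⟩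
  have hN7 : 7 ≤ N := by linarith
  have hNr : 2*r^2 = N + 1 := by linarith
  obtain ⟨g, hg⟩ : ∃ g : ℤ, g = u + v := ⟨_, rfl⟩
  have hg2 : 4*r^2 - 3 ≤ g^2 := by
    have : g^2 = (v-u)^2 + 4*(u*v) := by rw [hg]; ring
    have h1 : 1 ≤ v - u := by linarith
    have h2 : 1*1 ≤ (v-u)*(v-u) := mul_le_mul h1 h1 (by norm_num) (by linarith)
    have h3 : (v-u)^2 = (v-u)*(v-u) := by ring
    linarith
  have hg0 : 0 < g := by linarith
  have hgr : 2*r - 1 ≤ g := by
    by_contra hc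
    push Not at hc
    have : g ≤ 2*r - 2 := by linarith
    have : g^2 ≤ (2*r-2)^2 := pow_le_pow_left₀ hg0.le this 2
    have e : (2*r-2)^2 = 4*r^2 - 8*r + 4 := by ring
    linarith
  have hx1r : 4*r - 1 ≤ x1 := by linarith
  have hx10 : 0 < x1 := by linarith
  rw [← hN, ← hg] at h
  obtain ⟨y, hy⟩ : ∃ y : ℤ, y = x2 - g := ⟨_, rfl⟩
  have huvN : 4*(u*v) = 2*N - 2 := by linarith
  have hyx : (2*N-1)*x1 + 1 ≤ y := by
    have : 4*u*v*x1 = (2*N-2)*x1 := by rw [← huvN]; ring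
    rw [this] at hx2
    linarith
  rw [← hy] at h
  have hNx : 1*x1 ≤ (2*N-1)*x1 := mul_le_mul_of_nonneg_right (by linarith) hx10.le
  have hy0 : 0 < y := by linarith
  obtain ⟨D, hD⟩ : ∃ D : ℤ, D = 2*N*y - x1 := ⟨_, rfl⟩
  rw [← hD] at h
  have hD0 : 0 < D := by
    rw [hD]
    have : 1*y ≤ (2*N)*y := mul_le_mul_of_nonneg_right (by linarith) hy0.le
    linarith
  obtain ⟨δ, hδ⟩ : ∃ δ : ℤ, δ = D - Z := ⟨_, rfl⟩
  have hQ1 : 1 < 4*r*N := by
    have h1 : 2*7 ≤ r*N := mul_le_mul hr2 hN7 (by norm_num) hr0.le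
    have h2 : 4*r*N = 4*(r*N) := by ring
    linarith
  have hQ2 : 1 < (4*r*N)^2 := one_lt_pow₀ hQ1 two_ne_zero
  have hδ0 : 0 < δ := by
    by_contra hc
    push Not at hc
    have : D ≤ Z := by linarith
    have := pow_le_pow_left₀ hD0.le this 2
    linarith
  have e1 : δ*(2*D-δ) = (4*r*N)^2 - 1 := by rw [hδ]; linear_combination -h
  obtain ⟨j, hj⟩ : ∃ j : ℤ, j = δ*y - 2*N*(N+1) := ⟨_, rfl⟩
  have e2 : 4*N*j = δ^2 + 2*x1*δ - 1 := by
    rw [hj]
    have h16 : (4*r*N)^2 = 8*N^2*(N+1) := by rw [← hNr]; ring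
    rw [h16, hD] at e1
    linear_combination e1
  have hj1 : 1 ≤ j := by
    have h1 : 0 < 4*N*j := by
      rw [e2]
      have h2 : 1*1 ≤ δ*δ := mul_le_mul hδ0 hδ0 (by norm_num) hδ0.le
      have h3 : δ^2 = δ*δ := by ring
      have h4 : 0 < 2*x1*δ := by positivity
      linarith
    have : 0 < j := (mul_pos_iff_of_pos_left (by linarith : 0 < 4*N)).1 h1
    linarith
  have hδQ : δ < 4*r*N := by
    by_contra hc
    push Not at hc
    have h1 := pow_le_pow_left₀ (by linarith) hc 2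
    have h2 : δ*δ ≤ δ*(2*D-δ) := mul_le_mul_of_nonneg_left (by linarith) hδ0.le
    have h3 : δ^2 = δ*δ := by ring
    linarith
  obtain ⟨P, hP⟩ : ∃ P : ℤ, P = δ*x1 := ⟨_, rfl⟩
  have hP0 : 0 < P := by rw [hP]; exact mul_pos hδ0 hx10
  have e3 : (2*N-1)*P ≤ δ*y := by
    have : δ*((2*N-1)*x1) ≤ δ*y := mul_le_mul_of_nonneg_left (by linarith) hδ0.le
    have h2 : δ*((2*N-1)*x1) = (2*N-1)*P := by rw [hP]; ring
    linarith
  have e4 : 3*(δ^2) ≤ 4*N*P := by
    have h1 : δ*δ ≤ δ*(4*r*N) := mul_le_mul_of_nonneg_left hδQ.le hδ0.le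
    have h2 : (3*r)*(4*N*δ) ≤ x1*(4*N*δ) :=
      mul_le_mul_of_nonneg_right (by linarith) (by positivity)
    have h3 : x1*(4*N*δ) = 4*N*P := by rw [hP]; ring
    have h4 : 3*(δ*(4*r*N)) = (3*r)*(4*N*δ) := by ring
    have h5 : δ^2 = δ*δ := by ring
    linarith
  have e5 : 12*N*((2*N-1)*P - 2*N*(N+1)) ≤ 4*N*P + 6*P := by
    have h1 : 12*N*((2*N-1)*P - 2*N*(N+1)) ≤ 12*N*j := by
      apply mul_le_mul_of_nonneg_left _ (by linarith)
      rw [hj]; linarith
    have h2 : 12*N*j = 3*δ^2 + 6*P - 3 := by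
      have : 12*N*j = 3*(4*N*j) := by ring
      rw [this, e2, hP]; ring
    linarith
  have e6 : P ≤ N + 2 := by
    by_contra hc
    push Not at hc
    have h1 : N + 3 ≤ P := by linarith
    have hNN : 7*N ≤ N*N := mul_le_mul_of_nonneg_right hN7 (by linarith)
    have hN2 : N^2 = N*N := by ring
    have h2 : 0 ≤ 24*N^2 - 16*N - 6 := by linarith
    have h3 : (24*N^2 - 16*N - 6)*(N+3) ≤ (24*N^2 - 16*N - 6)*P :=
      mul_le_mul_of_nonneg_left h1 h2
    have h4 : 12*N*((2*N-1)*P - 2*N*(N+1)) - (4*N*P + 6*P)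
        = (24*N^2 - 16*N - 6)*P - 24*N^2*(N+1) := by ring
    have h5 : (24*N^2 - 16*N - 6)*(N+3) - 24*N^2*(N+1) = 32*N^2 - 54*N - 18 := by ring
    linarith
  have e7 : δ ≤ r := by
    by_contra hc
    push Not at hc
    have h1 : r + 1 ≤ δ := by linarith
    have h2 : (r+1)*(4*r-1) ≤ δ*x1 :=
      mul_le_mul h1 hx1r (by linarith) hδ0.le
    rw [← hP] at h2
    have h3 : (r+1)*(4*r-1) = 4*r^2 + 3*r - 1 := by ring
    linarith
  have e8 : δ^2 ≤ r^2 := pow_le_pow_left₀ hδ0.le e7 2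
  have e9 : 4*N*1 ≤ 4*N*j := mul_le_mul_of_nonneg_left hj1 (by linarith)
  have e10 : 2*x1*δ = 2*P := by rw [hP]; ring
  rw [e2, e10] at e9
  linarith

/-- Descent: no solution of `v x² - a z² = v - a` with `z ≡ ±1 + v (mod 2v)`. -/
lemma descent {a v t : ℤ} (ha : 0 < a) (hav : a < v) (ht : t^2 = a*v+1) (ht0 : 0 < t) :
    ∀ n : ℕ, ∀ x z k : ℤ, z.natAbs = n → Odd k → (z = 1 + v*k ∨ z = -1 + v*k) →
      v*x^2 - a*z^2 = v - a → False := by
  have hv : 0 < v := by linarith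
  have hav0 : 0 < a*v := mul_pos ha hv
  intro n
  induction n using Nat.strong_induction_on with
  | _ n ih =>
    -- the positive case
    have main : ∀ x z k : ℤ, z.natAbs = n → 0 < x → 0 < z → Odd k →
        (z = 1 + v*k ∨ z = -1 + v*k) → v*x^2 - a*z^2 = v - a → False := by
      intro x z k hn hx hz hk hzk he
      have hbig : z = v - 1 ∨ v + 1 ≤ z := by
        obtain ⟨j, hj⟩ := hk
        rcases hzk with h1 | h1
        · right
          have : 0 ≤ j := by
            by_contra hc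
            push Not at hc
            have h2 : v*k ≤ v*(-1) := mul_le_mul_of_nonneg_left (by linarith) hv.le
            linarith
          have h2 : v*1 ≤ v*k := mul_le_mul_of_nonneg_left (by linarith) hv.le
          linarith
        · have : 0 ≤ j := by
            by_contra hc
            push Not at hc
            have h2 : v*k ≤ v*(-1) := mul_le_mul_of_nonneg_left (by linarith) hv.le
            linarith
          rcases eq_or_lt_of_le this with h0 | h0
          · left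
            have : k = 1 := by linarith
            rw [h1, this]; ring
          · right
            have h2 : v*3 ≤ v*k := mul_le_mul_of_nonneg_left (by linarith) hv.le
            linarith
      rcases hbig with h1 | h1
      · -- z = v - 1
        have h2 : v*(t^2 - x^2) = v*(2*a) := by
          rw [h1] at he
          linear_combination v*ht - he
        have h3 : t^2 - x^2 = 2*a := mul_left_cancel₀ hv.ne' h2
        have h4 : a < t := by
          by_contra hc
          push Not at hc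
          have h5 := pow_le_pow_left₀ ht0.le hc 2
          have h6 : a*a ≤ a*v := mul_le_mul_of_nonneg_left hav.le ha.le
          have h7 : a^2 = a*a := by ring
          linarith
        have h5 : x < t := by
          by_contra hc
          push Not at hc
          have := pow_le_pow_left₀ ht0.le hc 2
          linarith
        have h6 : (t-x)*(t+x) = 2*a := by linear_combination h3
        have h7 : t - x ≠ 1 := by
          intro h7
          rw [h7] at h6
          have : t + x = 2*a := by linarith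
          omega
        have h8 : 2 ≤ t - x := by omega
        have h9 : 2*(t+x) ≤ (t-x)*(t+x) := mul_le_mul_of_nonneg_right h8 (by linarith)
        linarith
      · -- descend
        have hzv : v*(v-a) < z^2 := by
          have h2 : (v+1)*(v+1) ≤ z*z := mul_le_mul h1 h1 (by linarith) hz.le
          have h3 : z^2 = z*z := by ring
          have h4 : (v+1)*(v+1) - v*(v-a) = 2*v + 1 + a*v := by ring
          linarith
        have i1 : (a*z) < t*x := by
          have h2 : (a*z)^2 < (t*x)^2 := by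
            have e : v*((t*x)^2 - (a*z)^2) = a*z^2 + (a*v+1)*(v-a) := by
              linear_combination v*x^2*ht + (a*v+1)*he
            have : 0 < a*z^2 + (a*v+1)*(v-a) := by
              have h3 : 0 < a*z^2 := by positivity
              have h4 : 0 < (a*v+1)*(v-a) := mul_pos (by linarith) (by linarith)
              linarith
            rw [← e] at this
            have := (mul_pos_iff_of_pos_left hv).1 this
            linarith
          exact lt_of_pow_lt_pow_left₀ 2 (by positivity) h2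
        have i2 : v*x < t*z := by
          have h2 : (v*x)^2 < (t*z)^2 := by
            have e : (t*z)^2 - (v*x)^2 = z^2 - v*(v-a) := by
              linear_combination z^2*ht - v*he
            linarith
          exact lt_of_pow_lt_pow_left₀ 2 (by positivity) h2
        have hz1 : (2*a*v+1)*z - 2*v*t*x < z := by
          have h2 : v*(a*z) < v*(t*x) := mul_lt_mul_of_pos_left i1 hv
          have h3 : (2*a*v+1)*z - 2*v*t*x = z + 2*(v*(a*z)) - 2*(v*(t*x)) := by ring
          linarith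
        have hz2 : -z < (2*a*v+1)*z - 2*v*t*x := by
          have h2 : t*(v*x) < t*(t*z) := mul_lt_mul_of_pos_left i2 ht0
          have h3 : t*(t*z) = (a*v+1)*z := by rw [← ht]; ring
          have h4 : (2*a*v+1)*z - 2*v*t*x = 2*((a*v+1)*z) - z - 2*(t*(v*x)) := by ring
          linarith
        refine ih (((2*a*v+1)*z - 2*v*t*x).natAbs) (by omega)
          ((2*a*v+1)*x - 2*a*t*z) ((2*a*v+1)*z - 2*v*t*x) (k + 2*(a*z-t*x)) rfl ?_ ?_ ?_
        · exact hk.add_even ⟨a*z-t*x, by ring⟩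
        · rcases hzk with h2 | h2
          · left
            linear_combination h2
          · right
            linear_combination h2
        · linear_combination he - 4*a*v*(v*x^2 - a*z^2)*ht
    intro x z k hn hk hzk he
    have hx : x ≠ 0 := by
      intro hx
      rw [hx] at he
      have h1 : 0 ≤ a*z^2 := by positivity
      have h2 : v*0^2 = 0 := by ring
      linarith
    have hz : z ≠ 0 := by
      intro hz
      have hv2 : 2 ≤ v := by linarith
      rcases hzk with h1 | h1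
      · have : v ∣ 1 := ⟨-k, by linarith⟩
        have := Int.le_of_dvd (by norm_num) this
        linarith
      · have : v ∣ 1 := ⟨k, by linarith⟩
        have := Int.le_of_dvd (by norm_num) this
        linarith
    have hx' : 0 < |x| := abs_pos.2 hx
    rcases lt_or_gt_of_ne hz with hz0 | hz0
    · refine main |x| (-z) (-k) (by rw [Int.natAbs_neg]; exact hn) hx' (by linarith) hk.neg ?_ ?_
      · rcases hzk with h1 | h1
        · right; linarith
        · left; linarith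
      · rw [sq_abs, neg_sq]; exact he
    · exact main |x| z k hn hx' hz0 hk hzk (by rw [sq_abs]; exact he)

lemma step2 {u v r x x' Y t : ℤ} (hr : r^2 = u*v+1) (hY : Y^2 = u*x+1) (ht : t^2 = v*x+1)
    (hx' : x' = u+v+x+2*u*v*x+2*r*Y*t) :
    ((2*u*v+1)*Y+2*r*u*t)^2 = u*(2*(u+v+x'+2*u*v*x')-x) + 1 ∧
    ((2*u*v+1)*t+2*r*v*Y)^2 = v*(2*(u+v+x'+2*u*v*x')-x) + 1 ∧
    2*(u+v+(2*(u+v+x'+2*u*v*x')-x)+2*u*v*(2*(u+v+x'+2*u*v*x')-x)) - x'
      = u+v+(2*(u+v+x'+2*u*v*x')-x)+2*u*v*(2*(u+v+x'+2*u*v*x')-x)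
        + 2*r*((2*u*v+1)*Y+2*r*u*t)*((2*u*v+1)*t+2*r*v*Y) := by
  subst hx'
  refine ⟨?_, ?_, ?_⟩
  · linear_combination (2*u*v+1)^2*hY + 4*r^2*u^2*ht + 4*u^2*(v*x+1)*hr
  · linear_combination (2*u*v+1)^2*ht + 4*r^2*v^2*hY + 4*v^2*(u*x+1)*hr
  · linear_combination -(8*u*v*r*Y*t + 4*(2*u*v+1)*(2*u*v*x+u+v))*hr
      - 4*(2*u*v+1)*r^2*v*hY - 4*(2*u*v+1)*r^2*u*ht

/-- One end is even and smaller than `v`: impossible. -/
lemma caseC {u v r x1 x2 x3 x4 x5 X : ℤ} (hv : 0 < v)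
    (hr : r^2 = u*v+1) (hx1 : 0 < x1) (hx1v : x1 < v) (hev : Even x1)
    (hY : ∃ Y, Y^2 = u*x1+1) (ht : ∃ t, t^2 = v*x1+1)
    (hS : S u v x1 x2 = 0)
    (h13 : x1 + x3 = 2*(u+v+x2+2*u*v*x2)) (h24 : x2 + x4 = 2*(u+v+x3+2*u*v*x3))
    (h35 : x3 + x5 = 2*(u+v+x4+2*u*v*x4)) (hX : X^2 = x1*x5+1) : False := by
  obtain ⟨Y0, hY0⟩ := hY
  obtain ⟨t0, ht0⟩ := ht
  have ht1 : |t0|^2 = v*x1+1 := by rw [sq_abs]; exact ht0
  obtain ⟨t, htt⟩ : ∃ t : ℤ, t = |t0| := ⟨_, rfl⟩
  rw [← htt] at ht1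
  have htnn : 0 ≤ t := by rw [htt]; exact abs_nonneg _
  have hvx : 0 < v*x1 := mul_pos hv hx1
  have htpos : 0 < t := by
    rcases eq_or_lt_of_le htnn with h | h
    · rw [← h] at ht1; linarith
    · exact h
  -- choose the sign of Y
  obtain ⟨Y, hYY, hx2⟩ : ∃ Y : ℤ, Y^2 = u*x1+1 ∧ x2 = u+v+x1+2*u*v*x1+2*r*Y*t := by
    have e : (x2 - (u+v+x1+2*u*v*x1))^2 = (2*r*Y0*t)^2 := by
      have : (2*r*Y0*t)^2 = 4*(u*v+1)*(u*x1+1)*(v*x1+1) := by
        calc (2*r*Y0*t)^2 = 4*r^2*Y0^2*t^2 := by ring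
          _ = _ := by rw [hr, hY0, ht1]
      rw [this]
      unfold S at hS
      linear_combination hS
    rcases sq_eq_sq_iff_eq_or_eq_neg.1 e with h1 | h1
    · exact ⟨Y0, hY0, by linarith⟩
    · exact ⟨-Y0, by rw [neg_sq]; exact hY0, by linarith⟩
  obtain ⟨a1, a2, a3⟩ := step2 hr hYY ht1 hx2
  have ex3 : 2*(u+v+x2+2*u*v*x2) - x1 = x3 := by linarith
  rw [ex3] at a1 a2 a3
  have ex4 : 2*(u+v+x3+2*u*v*x3) - x2 = x4 := by linarith
  rw [ex4] at a3
  obtain ⟨b1, b2, -⟩ := step2 hr a1 a2 a3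
  have ex5 : 2*(u+v+x4+2*u*v*x4) - x3 = x5 := by linarith
  rw [ex5] at b1 b2
  obtain ⟨K, hK⟩ : ∃ K : ℤ, (2*u*v+1)*((2*u*v+1)*t+2*r*v*Y)
      + 2*r*v*((2*u*v+1)*Y+2*r*u*t) = t + 2*v*K := by
    refine ⟨2*u*((2*u*v+1)*t+2*r*v*Y)*1 - u*((2*u*v+1)*t+2*r*v*Y) + (u*t + r*Y)
      + r*((2*u*v+1)*Y+2*r*u*t), ?_⟩
    ring
  rw [hK] at b2
  have hXodd : Odd X := by
    have h1 : Odd (X^2) := by
      rw [hX]
      exact (hev.mul_right x5).add_one
    exact (Int.odd_pow' two_ne_zero).1 h1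
  refine descent hx1 hx1v (by rw [ht1]; ring) htpos _ (t*X - x1*(t+2*v*K))
    (t*(t+2*v*K) - v*X) (x1 - X + 2*t*K) rfl ?_ ?_ ?_
  · exact (hev.sub_odd hXodd).add_even ⟨t*K, by ring⟩
  · left
    linear_combination ht1
  · linear_combination (v*X^2 - x1*(t+2*v*K)^2)*ht1 + v*hX - x1*b2

end H6W
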