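import Pool.Agent.H6W.Cases

namespace H6W

/-- Path with `x₂ < x₄`, `v < x₃`. -/
lemma path_mono {u v r x1 x2 x3 x4 x5 X : ℤ} (hu : 0 < u) (huv : u < v) (hr : r^2 = u*v+1)
    (hr0 : 0 < r) (h1 : 0 < x1) (h2 : 0 < x2)
    (hev : Even x1)
    (n1 : x1 ≠ v) (n2 : x2 ≠ v) (n12 : x1 ≠ x2)
    (n13 : x1 ≠ x3)
    (hY : ∃ Y, Y^2 = u*x1+1) (ht : ∃ t, t^2 = v*x1+1)
    (S12 : S u v x1 x2 = 0) (S23 : S u v x2 x3 = 0)
    (h13 : x1 + x3 = 2*(u+v+x2+2*u*v*x2)) (h24 : x2 + x4 = 2*(u+v+x3+2*u*v*x3))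
    (h35 : x3 + x5 = 2*(u+v+x4+2*u*v*x4)) (hp : x2*x4 = (u+v-x3)^2 - 4*(u*v+1))
    (hX : X^2 = x1*x5+1) (hv3 : v < x3) (h23 : x2 < x3) : False := by
  have hv : 0 < v := by linarith
  have S21 : S u v x2 x1 = 0 := by rw [S_comm34]; exact S12
  rcases lt_or_gt_of_ne n1 with a1 | a1
  · exact caseC hv hr h1 a1 hev hY ht S12 h13 h24 h35 hX
  · -- x1 > v
    have b2 : v < x2 := by
      rcases lt_or_gt_of_ne n2 with a2 | a2
      · exact (not_both_big hu hv h2 S21 S23 n13 (by linarith) a1 (by linarith)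
          (by linarith) hv3 h23).elim
      · exact a2
    have b12 : x1 < x2 := by
      rcases lt_or_gt_of_ne n12 with a2 | a2
      · exact a2
      · exact (not_both_big hu hv h2 S21 S23 n13 (by linarith) a1 a2
          (by linarith) hv3 h23).elim
    have c2 : u+v+x1+4*u*v*x1 < x2 := big hu hv h1 (by linarith) b2 b12 S12
    -- the other neighbour of x1 is nonnegative
    have hx1g : u + v + 2*r ≤ x1 := by
      obtain ⟨x0, hx0⟩ : ∃ x0 : ℤ, x0 = 2*(u+v+x1+2*u*v*x1) - x2 := ⟨_, rfl⟩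
      have e : x0*x2 = (x1 - (u+v))^2 - 4*r^2 := by
        rw [hx0, hr]
        unfold S at S12
        linear_combination -S12
      have h0 : 0 ≤ x0 := by
        by_contra hc
        push Not at hc
        have hc' : x0 ≤ -1 := by linarith
        have e1 : x0*x2 ≤ -x2 := by nlinarith
        have e2 : 4*(u*v)*1 ≤ 4*(u*v)*x1 :=
          mul_le_mul_of_nonneg_left (by linarith) (by positivity)
        have e3 : 0 ≤ (x1-(u+v))^2 := sq_nonneg _
        have e4 : 4*u*v*x1 = 4*(u*v)*x1 := by ring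
        rw [e4] at c2
        -- -x2 ≥ -4r² = -4uv-4, but x2 > 4uv + 4
        linarith
      have h5 : (2*r)^2 ≤ (x1-(u+v))^2 := by
        have : 0 ≤ x0*x2 := mul_nonneg h0 h2.le
        linarith
      have h6 : -(2*r) < x1 - (u+v) := by
        have : u < r := by
          by_contra hc
          push Not at hc
          have := pow_le_pow_left₀ hr0.le hc 2
          nlinarith
        linarith
      by_contra hc
      push Not at hc
      have : (x1-(u+v))^2 < (2*r)^2 := by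
        apply sq_lt_sq' h6
        linarith
      linarith
    have hk := key hr h13 h24 h35 hp
    have e1 : x3 - 4*(u+v)*r^2 = 2*(2*r^2-1)*(x2-(u+v)) - x1 := by
      have : x3 = 2*(u+v+x2+2*u*v*x2) - x1 := by linarith
      rw [this, hr]; ring
    have hZ : |X|^2 = (2*(2*r^2-1)*(x2-(u+v)) - x1)^2 - (4*r*(2*r^2-1))^2 + 1 := by
      rw [sq_abs, hX, hk, e1]
    exact caseM hu huv hr hr0 hx1g c2 (abs_nonneg X) hZ

/-- Five consecutive elements of a regular chain over `{u,v}`, `u < v`. -/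
theorem path_lt {u v r x1 x2 x3 x4 x5 X : ℤ} (hu : 0 < u) (huv : u < v) (hr : r^2 = u*v+1)
    (hr0 : 0 < r) (h1 : 0 < x1) (h2 : 0 < x2) (h3 : 0 < x3) (h4 : 0 < x4) (h5 : 0 < x5)
    (n1 : x1 ≠ v) (n2 : x2 ≠ v) (n3 : x3 ≠ v) (n4 : x4 ≠ v) (n5 : x5 ≠ v)
    (n12 : x1 ≠ x2) (n13 : x1 ≠ x3) (n23 : x2 ≠ x3) (n24 : x2 ≠ x4) (n34 : x3 ≠ x4)
    (n35 : x3 ≠ x5) (n45 : x4 ≠ x5)
    (hY1 : ∃ Y, Y^2 = u*x1+1) (ht1 : ∃ t, t^2 = v*x1+1)
    (hY5 : ∃ Y, Y^2 = u*x5+1) (ht5 : ∃ t, t^2 = v*x5+1)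
    (S12 : S u v x1 x2 = 0) (S23 : S u v x2 x3 = 0) (S34 : S u v x3 x4 = 0)
    (S45 : S u v x4 x5 = 0) (hX : X^2 = x1*x5+1) : False := by
  have hv : 0 < v := by linarith
  have S21 : S u v x2 x1 = 0 := by rw [S_comm34]; exact S12
  have S32 : S u v x3 x2 = 0 := by rw [S_comm34]; exact S23
  have S43 : S u v x4 x3 = 0 := by rw [S_comm34]; exact S34
  have S54 : S u v x5 x4 = 0 := by rw [S_comm34]; exact S45
  have h13 := nbr_sum S21 S23 n13
  have h24 := nbr_sum S32 S34 n24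
  have h35 := nbr_sum S43 S45 n35
  have hp := nbr_prod S32 S34 n24
  have hk := key hr h13 h24 h35 hp
  have h4D : (4:ℤ) ∣ x3 - 4*(u+v)*r^2 := by
    apply four_dvd (X := X) (Q := r*(2*r^2-1))
    rw [hX, hk]; ring
  have h4x : (4:ℤ) ∣ x3 := by
    have : (4:ℤ) ∣ 4*(u+v)*r^2 := ⟨(u+v)*r^2, by ring⟩
    have := dvd_add h4D this
    simpa using this
  have hev3 : Even x3 := by
    obtain ⟨c, hc⟩ := h4x
    exact ⟨2*c, by rw [hc]; ring⟩
  have hev1 : Even x1 := by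
    have : x1 = 2*(u+v+x2+2*u*v*x2) - x3 := by linarith
    rw [this]
    exact (even_two_mul _).sub hev3
  have hev5 : Even x5 := by
    have : x5 = 2*(u+v+x4+2*u*v*x4) - x3 := by linarith
    rw [this]
    exact (even_two_mul _).sub hev3
  rcases lt_or_gt_of_ne n3 with a3 | a3
  · -- valley
    have hZ : |X|^2 = (x3 - 4*(u+v)*r^2)^2 - (4*r*(2*r^2-1))^2 + 1 := by
      rw [sq_abs, hX, hk]
    have hsmall : x2 < v ∨ x4 < v := by
      by_contra hc
      push Not at hc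
      have c2 : v < x2 := lt_of_le_of_ne hc.1 (Ne.symm n2)
      have c4 : v < x4 := lt_of_le_of_ne hc.2 (Ne.symm n4)
      exact not_both_big hu hv h3 S32 S34 n24 (by linarith) c2 (by linarith)
        (by linarith) c4 (by linarith)
    have key' : ∀ p : ℤ, 0 < p → p < v → S u v x3 p = 0 → 4*u*x3 < v := by
      intro p hp0 hpv hSp
      have hS' : S u x3 p v = 0 := by
        unfold S at hSp ⊢; linear_combination hSp
      have := big hu h3 hp0 huv a3 hpv hS'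
      have h6 : 4*u*x3*1 ≤ 4*u*x3*p := mul_le_mul_of_nonneg_left hp0 (by positivity)
      linarith
    have hmv : 4*u*x3 < v := by
      rcases hsmall with b | b
      · exact key' x2 h2 b S32
      · exact key' x4 h4 b S34
    exact caseV hu hr h3 h4x hmv (abs_nonneg X) hZ
  · have hlt : x2 < x3 ∨ x4 < x3 := by
      by_contra hc
      push Not at hc
      have c2 : x3 < x2 := lt_of_le_of_ne hc.1 (Ne.symm n23)
      have c4 : x3 < x4 := lt_of_le_of_ne hc.2 n34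
      exact not_both_big hu hv h3 S32 S34 n24 (by linarith) (by linarith) c2
        (by linarith) (by linarith) c4
    rcases hlt with b | b
    · exact path_mono hu huv hr hr0 h1 h2 hev1 n1 n2 n12 n13 hY1 ht1 S12 S23 h13 h24 h35
        hp hX a3 b
    · exact path_mono (x1 := x5) (x2 := x4) (x3 := x3) (x4 := x2) (x5 := x1)
        hu huv hr hr0 h5 h4 hev5 n5 n4 n45.symm n35.symm hY5 ht5 S54 S43
        (by linarith) (by linarith) (by linarith) (by rw [mul_comm]; exact hp)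
        (by rw [hX]; ring) a3 b

lemma S_swap_uv (u v x y : ℤ) : S u v x y = S v u x y := by unfold S; ring

/-- Five consecutive elements of a regular chain over `{u,v}`. -/
theorem path {u v x1 x2 x3 x4 x5 : ℤ} (hu : 0 < u) (hv : 0 < v) (huv : u ≠ v)
    (hr : IsSquare (u*v+1))
    (h1 : 0 < x1) (h2 : 0 < x2) (h3 : 0 < x3) (h4 : 0 < x4) (h5 : 0 < x5)
    (nu : u ≠ x1 ∧ u ≠ x2 ∧ u ≠ x3 ∧ u ≠ x4 ∧ u ≠ x5)
    (nv : v ≠ x1 ∧ v ≠ x2 ∧ v ≠ x3 ∧ v ≠ x4 ∧ v ≠ x5)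
    (n12 : x1 ≠ x2) (n13 : x1 ≠ x3) (n23 : x2 ≠ x3) (n24 : x2 ≠ x4) (n34 : x3 ≠ x4)
    (n35 : x3 ≠ x5) (n45 : x4 ≠ x5)
    (hY1 : IsSquare (u*x1+1)) (ht1 : IsSquare (v*x1+1))
    (hY5 : IsSquare (u*x5+1)) (ht5 : IsSquare (v*x5+1))
    (S12 : S u v x1 x2 = 0) (S23 : S u v x2 x3 = 0) (S34 : S u v x3 x4 = 0)
    (S45 : S u v x4 x5 = 0) : ¬ IsSquare (x1*x5+1) := by
  intro hX
  obtain ⟨X, hX⟩ := hX
  obtain ⟨r0, hr0⟩ := hr
  have hrr : |r0|^2 = u*v+1 := by rw [sq_abs, hr0]; ring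
  have huv0 : 0 < u*v := mul_pos hu hv
  have hrpos : 0 < |r0| := by
    rcases eq_or_lt_of_le (abs_nonneg r0) with h | h
    · rw [← h] at hrr; nlinarith
    · exact h
  have ex : ∀ n : ℤ, IsSquare n → ∃ Y : ℤ, Y^2 = n := by
    rintro n ⟨y, hy⟩; exact ⟨y, by rw [hy]; ring⟩
  have hX' : X^2 = x1*x5+1 := by rw [hX]; ring
  rcases lt_or_gt_of_ne huv with h | h
  · exact path_lt hu h hrr hrpos h1 h2 h3 h4 h5 nv.1.symm nv.2.1.symm nv.2.2.1.symm
      nv.2.2.2.1.symm nv.2.2.2.2.symm n12 n13 n23 n24 n34 n35 n45 (ex _ hY1) (ex _ ht1)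
      (ex _ hY5) (ex _ ht5) S12 S23 S34 S45 hX'
  · exact path_lt (u := v) (v := u) hv h (by rw [hrr]; ring) hrpos h1 h2 h3 h4 h5
      nu.1.symm nu.2.1.symm nu.2.2.1.symm
      nu.2.2.2.1.symm nu.2.2.2.2.symm n12 n13 n23 n24 n34 n35 n45 (ex _ ht1) (ex _ hY1)
      (ex _ ht5) (ex _ hY5) (by rw [S_swap_uv]; exact S12) (by rw [S_swap_uv]; exact S23)
      (by rw [S_swap_uv]; exact S34) (by rw [S_swap_uv]; exact S45) hX'

end H6W
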